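import Pool.Agent.Helper66_ML.Stmts

/-!
PUR: `M` a finite commutative group, `ψ : Q → M` injective without nontrivial invariant subgroup;
then the exponent of `M` divides `|M : Q|`.
-/

noncomputable section

namespace Pool.Agent.PP.ML.H71

theorem pur_aux (n : ℕ) : ∀ (M : Type) [CommGroup M] [Finite M] (Q : Subgroup M) (ψ : Q →* M),
    Function.Injective ψ →
    (∀ U : Subgroup M, U ≤ Q → (∀ q : Q, (q : M) ∈ U → ψ q ∈ U) → U = ⊥) →
    Nat.card M ≤ n → ∀ m : M, m ^ Q.index = 1 := by
  induction n with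
  | zero =>
    intro M _ _ Q ψ _ _ hn m
    have : 0 < Nat.card M := Nat.card_pos
    omega
  | succ n ih =>
    intro M _ _ Q ψ hinj hinv hn m
    by_cases hQ : Q = ⊤
    · have h1 := hinv ⊤ (by rw [hQ]) fun q _ => Subgroup.mem_top _
      have h2 : m ∈ (⊤ : Subgroup M) := Subgroup.mem_top m
      rw [h1, Subgroup.mem_bot] at h2
      rw [h2, one_pow]
    · have hcard : Nat.card Q ≤ n := by
        have h1 : Nat.card Q ≠ Nat.card M := by
          intro h
          exact hQ ((Subgroup.card_eq_iff_eq_top Q).1 h)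
        have h2 : Nat.card Q ≤ Nat.card M := Subgroup.card_le_card_group Q
        omega
      let Q' : Subgroup Q := Q.comap ψ
      let ψ' : Q' →* Q := (ψ.comp Q'.subtype).codRestrict Q fun q => q.2
      have hinj' : Function.Injective ψ' := by
        intro a b hab
        have h1 : ψ (a : Q) = ψ (b : Q) := congrArg Subtype.val hab
        exact Subtype.ext (hinj h1)
      have hinv' : ∀ U : Subgroup Q, U ≤ Q' →
          (∀ q : Q', (q : Q) ∈ U → ψ' q ∈ U) → U = ⊥ := by
        intro U hU hU2
        have h1 : U.map Q.subtype = ⊥ := by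
          apply hinv
          · rintro _ ⟨s, _, rfl⟩
            exact s.2
          · rintro q ⟨t, ht, hq⟩
            have h3 : t = q := Subtype.ext hq
            subst h3
            exact ⟨ψ' ⟨t, hU ht⟩, hU2 ⟨t, hU ht⟩ ht, rfl⟩
        rw [Subgroup.map_eq_bot_iff_of_injective _ Q.subtype_injective] at h1
        exact h1
      have hIH : ∀ q : Q, q ^ Q'.index = 1 := ih Q Q' ψ' hinj' hinv' hcard
      have hN : Q'.index = Q.relIndex (ψ.range ⊔ Q) := by
        rw [Subgroup.relIndex_sup_right]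
        exact Subgroup.index_comap Q ψ
      have h1 : Q.relIndex (ψ.range ⊔ Q) * (ψ.range ⊔ Q).index = Q.index :=
        Subgroup.relIndex_mul_index le_sup_right
      have h2 : m ^ (ψ.range ⊔ Q).index ∈ ψ.range ⊔ Q := Subgroup.pow_index_mem _ m
      obtain ⟨_, ⟨a, rfl⟩, b, hb, h3⟩ := Subgroup.mem_sup.1 h2
      have h4 : b ^ Q'.index = 1 := congrArg Subtype.val (hIH ⟨b, hb⟩)
      rw [← h1, mul_comm, pow_mul, ← h3, ← hN, mul_pow, ← map_pow, hIH a, map_one, one_mul, h4]

theorem pur : Pool.Agent.PP.ML.PurStmt := by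
  intro M _ _ Q ψ hinj hinv m
  exact pur_aux (Nat.card M) M Q ψ hinj hinv le_rfl m

end Pool.Agent.PP.ML.H71
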