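import Pool.Agent.Helper71_ML.Transfer
import Pool.Agent.Helper66_ML.Stmts

/-!
TAU: the transfer of a permutation over classes on which it acts as an element of a commutative
group.
-/

open scoped BigOperators

noncomputable section

namespace Pool.Agent.PP.ML.H71

open Pool.Agent.Helper71_ML

section

variable {R Ω A : Type*} [Group R] [MulAction R Ω] [CommGroup A] {ρ : R →* A} {k : Ω → A}

/-- the stabiliser in `M` of the orbit of `φ 1` -/
def stb {M : Type*} [CommGroup M] (φ : M → Ω)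
    (hφr : ∀ (m m' m'' : M) (r : R), φ m' = r • φ m → φ (m' * m'') = r • φ (m * m'')) :
    Subgroup M where
  carrier := {m | ∃ r : R, φ m = r • φ 1}
  mul_mem' := by
    rintro a b ⟨r, hr⟩ ⟨t, ht⟩
    refine ⟨r * t, ?_⟩
    rw [hφr 1 a b r hr, one_mul, ht, mul_smul]
  one_mem' := ⟨1, (one_smul _ _).symm⟩
  inv_mem' := by
    rintro a ⟨r, hr⟩
    refine ⟨r⁻¹, ?_⟩
    have h1 := hφr 1 a a⁻¹ r hr
    rw [mul_inv_cancel, one_mul] at h1
    rw [h1, inv_smul_smul]

/-- the product over the orbits of one class -/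
theorem fibre0 [Finite Ω] (hfree : ∀ (r : R) (w : Ω), r • w = w → r = 1)
    (hk : Equiva ρ k) {f : Equiv.Perm Ω} (hf : Comm R f) {C : Ω → Set Ω}
    (hC1 : ∀ w, w ∈ C w) (hC2 : ∀ w w', w' ∈ C w → C w' = C w) (w : Ω)
    {M : Type*} [CommGroup M] [Finite M] (m₀ : M) (φ : M → Ω) (hφ1 : φ 1 = w)
    (hφf : ∀ m, f (φ m) = φ (m * m₀))
    (hφr : ∀ (m m' m'' : M) (r : R), φ m' = r • φ m → φ (m' * m'') = r • φ (m * m''))
    (hC : ∀ w', w' ∈ C w ↔ ∃ (r : R) (m : M), w' = r • φ m) :
    (∀ θ : R, φ (m₀ ^ (stb φ hφr).index) = θ • w →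
      ∏ᶠ (q : MulAction.orbitRel.Quotient R Ω) (_ : C q.out = C w), gau R k f q = ρ θ) ∧
    Nat.card {q : MulAction.orbitRel.Quotient R Ω // C q.out = C w} = (stb φ hφr).index ∧
    (C w).ncard = Nat.card R * (stb φ hφr).index := by
  classical
  have huniq : ∀ {r r' : R} {v : Ω}, r • v = r' • v → r = r' := by
    intro r r' v h
    have h1 := hfree (r'⁻¹ * r) v (by rw [mul_smul, h, inv_smul_smul])
    rw [inv_mul_eq_one] at h1
    exact h1.symm
  have hmk : ∀ v v' : Ω, (Quotient.mk'' v : MulAction.orbitRel.Quotient R Ω) = Quotient.mk'' v' ↔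
      ∃ r : R, v = r • v' := by
    intro v v'
    constructor
    · intro h
      have h1 : (MulAction.orbitRel R Ω) v v' := Quotient.exact' h
      rw [MulAction.orbitRel_apply] at h1
      obtain ⟨r, hr⟩ := h1
      exact ⟨r, hr.symm⟩
    · rintro ⟨r, hr⟩
      apply Quotient.sound'
      show (MulAction.orbitRel R Ω) v v'
      rw [MulAction.orbitRel_apply]
      exact ⟨r, hr.symm⟩
  obtain ⟨S, hSdef⟩ : ∃ S : Subgroup M, S = stb φ hφr := ⟨_, rfl⟩
  rw [← hSdef]
  have hS : ∀ m, m ∈ S ↔ ∃ r : R, φ m = r • φ 1 := by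
    intro m
    rw [hSdef]
    exact Iff.rfl
  -- two elements of `M` give the same orbit iff they differ by an element of `S`
  have hdiff : ∀ (m m' : M) (r : R), φ m' = r • φ m → m' * m⁻¹ ∈ S := by
    intro m m' r h
    rw [hS]
    exact ⟨r, by rw [hφr m m' m⁻¹ r h, mul_inv_cancel]⟩
  have hmul : ∀ (s : M) (m : M) (r : R), φ s = r • φ 1 → φ (m * s) = r • φ m := by
    intro s m r h
    rw [mul_comm, hφr 1 s m r h, one_mul]
  have hout : ∀ m : M, ∃ r : R, φ ((m : M ⧸ S).out) = r • φ m := by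
    intro m
    have h1 : (((m : M ⧸ S).out : M) : M ⧸ S) = (m : M ⧸ S) := QuotientGroup.out_eq' _
    rw [eq_comm, QuotientGroup.eq, hS] at h1
    obtain ⟨r, hr⟩ := h1
    refine ⟨r, ?_⟩
    have h2 := hmul (m⁻¹ * (m : M ⧸ S).out) m r hr
    rw [← h2]
    simp
  let j : M ⧸ S → MulAction.orbitRel.Quotient R Ω := fun t => Quotient.mk'' (φ t.out)
  have houtinj : ∀ (t t' : M ⧸ S) (r : R), φ t.out = r • φ t'.out → t = t' := by
    intro t t' r h
    have h1 := hdiff _ _ r h
    rw [← QuotientGroup.out_eq' t, ← QuotientGroup.out_eq' t', eq_comm, QuotientGroup.eq, mul_comm]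
    exact h1
  have hj : Function.Injective j := by
    intro t t' h
    obtain ⟨r, hr⟩ := (hmk _ _).1 h
    exact houtinj t t' r hr
  have hrange : ∀ q : MulAction.orbitRel.Quotient R Ω, C q.out = C w ↔ q ∈ Set.range j := by
    intro q
    constructor
    · intro h
      have h1 : q.out ∈ C w := by rw [← h]; exact hC1 _
      obtain ⟨r, m, hm⟩ := (hC _).1 h1
      refine ⟨(m : M ⧸ S), ?_⟩
      obtain ⟨t, ht⟩ := hout m
      show Quotient.mk'' (φ ((m : M ⧸ S).out)) = q
      rw [← Quotient.out_eq' q, hmk]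
      exact ⟨t * r⁻¹, by rw [ht, mul_smul, hm, inv_smul_smul]⟩
    · rintro ⟨t, rfl⟩
      apply hC2
      rw [hC]
      have h1 : (Quotient.mk'' (j t).out : MulAction.orbitRel.Quotient R Ω) =
          Quotient.mk'' (φ t.out) := Quotient.out_eq' (j t)
      obtain ⟨r, hr⟩ := (hmk _ _).1 h1
      exact ⟨r, _, hr⟩
  -- the index of `S`
  have hcnt : (C w).ncard = Nat.card R * S.index := by
    let e : R × (M ⧸ S) → Ω := fun p => p.1 • φ p.2.out
    have he : Function.Injective e := by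
      rintro ⟨r, t⟩ ⟨r', t'⟩ h
      have h0 : r • φ t.out = r' • φ t'.out := h
      have h1 : φ t.out = (r⁻¹ * r') • φ t'.out := by
        rw [mul_smul, ← h0, inv_smul_smul]
      have h2 := houtinj _ _ _ h1
      subst h2
      have h3 : r = r' := huniq h0
      rw [h3]
    have he2 : Set.range e = C w := by
      ext v
      rw [hC]
      constructor
      · rintro ⟨⟨r, t⟩, rfl⟩
        exact ⟨r, _, rfl⟩
      · rintro ⟨r, m, rfl⟩
        obtain ⟨t, ht⟩ := hout m
        refine ⟨(r * t⁻¹, (m : M ⧸ S)), ?_⟩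
        show (r * t⁻¹) • φ ((m : M ⧸ S).out) = r • φ m
        rw [ht, mul_smul, inv_smul_smul]
    rw [← he2, ← Nat.card_coe_set_eq, Nat.card_range_of_injective he, Nat.card_prod]
    rfl
  refine ⟨?_, ?_, hcnt⟩
  swap
  · have h5 : Nat.card {q : MulAction.orbitRel.Quotient R Ω // C q.out = C w} =
        Nat.card (Set.range j) := Nat.card_congr (Equiv.subtypeEquivRight hrange)
    rw [h5, Nat.card_range_of_injective hj]
    rfl
  intro θ hθ
  -- the homomorphism on `S`
  have hθS : ∀ s : S, ∃ r : R, φ s = r • φ 1 := fun s => (hS s).1 s.2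
  choose θS hθS using hθS
  let ϕ : S →* A :=
    { toFun := fun s => ρ (θS s)
      map_one' := by
        have h1 : θS 1 = 1 := huniq (v := φ 1) (by rw [← hθS 1, one_smul]; rfl)
        rw [h1, map_one]
      map_mul' := by
        intro s t
        have h1 : θS (s * t) = θS s * θS t := by
          apply huniq (v := φ 1)
          rw [← hθS (s * t), mul_smul, ← hθS t]
          show φ ((s : M) * t) = _
          rw [hφr 1 s t (θS s) (hθS s), one_mul]
        rw [h1, map_mul] }
  have hx : m₀ ^ S.index ∈ S := by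
    rw [hS]
    exact ⟨θ, by rw [hθ, hφ1]⟩
  have hκ : ∀ (m : M) (d : S), k (φ (m * d)) = ϕ d * k (φ m) := by
    intro m d
    rw [hmul d m (θS d) (hθS d), hk]
    rfl
  have h1 := piece_prod S ϕ (fun m => k (φ m)) hκ m₀ hx
  have h2 : ϕ ⟨m₀ ^ S.index, hx⟩ = ρ θ := by
    show ρ (θS ⟨m₀ ^ S.index, hx⟩) = ρ θ
    congr 1
    apply huniq (v := φ 1)
    rw [← hθS ⟨m₀ ^ S.index, hx⟩, hφ1, ← hθ]
  rw [← h2, ← h1]
  have h3 : ∏ᶠ (q : MulAction.orbitRel.Quotient R Ω) (_ : C q.out = C w), gau R k f q =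
      ∏ᶠ (q : MulAction.orbitRel.Quotient R Ω) (_ : q ∈ Set.range j), gau R k f q := by
    apply finprod_congr
    intro q
    exact finprod_congr_Prop (propext (hrange q)) fun _ => rfl
  rw [h3, finprod_mem_range hj]
  apply finprod_congr
  intro t
  show gau R k f (Quotient.mk'' (φ t.out)) = _
  rw [gau_mk hk hf, hφf]

/-- the product over the orbits of one class with `N` orbits -/
theorem fibre [Finite Ω] [Finite R] (hfree : ∀ (r : R) (w : Ω), r • w = w → r = 1)
    (hk : Equiva ρ k) {f : Equiv.Perm Ω} (hf : Comm R f) {C : Ω → Set Ω}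
    (hC1 : ∀ w, w ∈ C w) (hC2 : ∀ w w', w' ∈ C w → C w' = C w) (w : Ω)
    {M : Type*} [CommGroup M] [Finite M] (m₀ : M) (φ : M → Ω) (hφ1 : φ 1 = w)
    (hφf : ∀ m, f (φ m) = φ (m * m₀))
    (hφr : ∀ (m m' m'' : M) (r : R), φ m' = r • φ m → φ (m' * m'') = r • φ (m * m''))
    (hC : ∀ w', w' ∈ C w ↔ ∃ (r : R) (m : M), w' = r • φ m) {N : ℕ}
    (hN : (C w).ncard = N * Nat.card R) {θ : R} (hθ : φ (m₀ ^ N) = θ • w) :
    ∏ᶠ (q : MulAction.orbitRel.Quotient R Ω) (_ : C q.out = C w), gau R k f q = ρ θ ∧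
    Nat.card {q : MulAction.orbitRel.Quotient R Ω // C q.out = C w} = N := by
  obtain ⟨h1, h2, h3⟩ := fibre0 hfree hk hf hC1 hC2 w m₀ φ hφ1 hφf hφr hC
  have h4 : N = (stb φ hφr).index := by
    rw [hN, mul_comm] at h3
    exact Nat.eq_of_mul_eq_mul_left Nat.card_pos h3
  rw [h4] at hθ ⊢
  exact ⟨h1 θ hθ, h2⟩

/-- the transfer as a product over the classes -/
theorem tau_classes [Finite Ω] {f : Equiv.Perm Ω} {C : Ω → Set Ω} {a : A}
    (h : ∀ w : Ω, ∏ᶠ (q : MulAction.orbitRel.Quotient R Ω) (_ : C q.out = C w), gau R k f q = a) :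
    ∃ n : ℕ, tau R k f = a ^ n ∧ ∀ N : ℕ,
      (∀ w : Ω, Nat.card {q : MulAction.orbitRel.Quotient R Ω // C q.out = C w} = N) →
      Nat.card (MulAction.orbitRel.Quotient R Ω) = N * n := by
  classical
  have hX : Finite (MulAction.orbitRel.Quotient R Ω) := Quotient.finite _
  have := Fintype.ofFinite (MulAction.orbitRel.Quotient R Ω)
  let c : MulAction.orbitRel.Quotient R Ω → Set Ω := fun q => C q.out
  refine ⟨(Finset.univ.image c).card, ?_, ?_⟩
  · unfold tau
    rw [finprod_eq_prod_of_fintype, ← Finset.prod_fiberwise_of_maps_to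
      (s := Finset.univ) (t := Finset.univ.image c) (g := c)
      (fun q _ => Finset.mem_image_of_mem _ (Finset.mem_univ _)), ← Finset.prod_const]
    apply Finset.prod_congr rfl
    intro d hd
    obtain ⟨q, _, rfl⟩ := Finset.mem_image.1 hd
    rw [← h q.out]
    symm
    apply finprod_cond_eq_prod_of_cond_iff
    intro x _
    rw [Finset.mem_filter]
    exact ⟨fun h => ⟨Finset.mem_univ _, h⟩, fun h => h.2⟩
  · intro N hN
    have h1 := Finset.card_eq_sum_card_image c (Finset.univ : Finset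
      (MulAction.orbitRel.Quotient R Ω))
    rw [Nat.card_eq_fintype_card, ← Finset.card_univ, h1, mul_comm, ← smul_eq_mul,
      ← Finset.sum_const]
    apply Finset.sum_congr rfl
    intro d hd
    obtain ⟨q, _, rfl⟩ := Finset.mem_image.1 hd
    rw [← hN q.out, Nat.card_eq_fintype_card, Fintype.card_subtype]

/-- the number of points of a free action -/
theorem card_free (hfree : ∀ (r : R) (w : Ω), r • w = w → r = 1) :
    Nat.card Ω = Nat.card R * Nat.card (MulAction.orbitRel.Quotient R Ω) := by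
  rw [← Nat.card_prod]
  symm
  apply Nat.card_eq_of_bijective
    (fun p : R × MulAction.orbitRel.Quotient R Ω => p.1 • (p.2.out : Ω))
  constructor
  · rintro ⟨r, q⟩ ⟨r', q'⟩ h
    have h0 : r • q.out = r' • q'.out := h
    have h1 : q = q' := by
      rw [← Quotient.out_eq' q, ← Quotient.out_eq' q']
      apply Quotient.sound'
      show (MulAction.orbitRel R Ω) _ _
      rw [MulAction.orbitRel_apply]
      exact ⟨r⁻¹ * r', by
        show (r⁻¹ * r') • q'.out = q.out
        rw [mul_smul, ← h0, inv_smul_smul]⟩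
    subst h1
    have h2 := hfree (r'⁻¹ * r) q.out (by rw [mul_smul, h0, inv_smul_smul])
    rw [inv_mul_eq_one] at h2
    rw [h2]
  · intro w
    have h1 : (MulAction.orbitRel R Ω) w (Quotient.mk'' w : MulAction.orbitRel.Quotient R Ω).out :=
      Quotient.exact' (Quotient.out_eq' _).symm
    rw [MulAction.orbitRel_apply] at h1
    obtain ⟨r, hr⟩ := h1
    exact ⟨(r, Quotient.mk'' w), hr⟩

/-- TAU: the transfer. -/
theorem tauS : Pool.Agent.PP.ML.TauStmt := by
  classical
  intro Ω R A _ _ _ _ ρ _ hfree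
  obtain ⟨k, hk⟩ := exists_equiva (Ω := Ω) ρ fun r ω h => by rw [hfree r ω h, map_one]
  refine ⟨fun f => if h : Function.Bijective f then
    Pool.Agent.Helper71_ML.tau R k (Equiv.ofBijective f h) else 1, ?_, ?_, ?_⟩
  · intro f h hfb hhb hf hh
    beta_reduce
    rw [dif_pos hfb, dif_pos hhb, dif_pos (hfb.comp hhb)]
    rw [← tau_mul hk (f := Equiv.ofBijective f hfb) (g := Equiv.ofBijective h hhb) hf hh]
    rfl
  · intro r hr
    have hb : Function.Bijective fun w : Ω => r • w := MulAction.bijective r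
    beta_reduce
    rw [dif_pos hb]
    have h1 : Comm R (Equiv.ofBijective _ hb) := by
      intro t w
      show r • t • w = t • r • w
      rw [← mul_smul, hr, mul_smul]
    rw [tau_smul hk h1 (r := r) fun w => rfl]
    congr 1
    rw [card_free hfree, Nat.mul_div_cancel_left _ Nat.card_pos]
  · intro f hfb hf C hC1 hC2 hdat
    beta_reduce
    rw [dif_pos hfb]
    have hf' : Comm R (Equiv.ofBijective f hfb) := hf
    obtain ⟨n, hn, _⟩ := tau_classes (R := R) (k := k) (f := Equiv.ofBijective f hfb) (C := C)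
      (a := 1) (by
        intro w
        obtain ⟨M, _, _, m₀, φ, N, h1, h2, h3, h4, h5, h6⟩ := hdat w
        rw [(fibre hfree hk hf' hC1 hC2 w m₀ φ h1 h2 h3 h4 h5 (θ := 1)
          (by rw [h6, one_smul, h1])).1, map_one])
    rw [hn, one_pow]

end

end Pool.Agent.PP.ML.H71
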