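import Pool.Agent.Helper71_ML.Tau

/-!
The transfer of a permutation `θ` such that `θ ^ N` acts as an element `r₀` of `R` and all cycles of
`θ` on the orbits have length exactly `N`.
-/

open scoped BigOperators

noncomputable section

namespace Pool.Agent.PP.ML.H71

open Pool.Agent.Helper71_ML

section

variable {R Ω A : Type*} [Group R] [MulAction R Ω] [CommGroup A] {ρ : R →* A} {k : Ω → A}

theorem Comm.inv {f : Equiv.Perm Ω} (hf : Comm R f) : Comm R f⁻¹ := by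
  intro r w
  apply f.injective
  rw [hf, ← Equiv.Perm.mul_apply, ← Equiv.Perm.mul_apply, mul_inv_cancel, Equiv.Perm.one_apply,
    Equiv.Perm.one_apply]

theorem Comm.zpow {f : Equiv.Perm Ω} (hf : Comm R f) (n : ℤ) : Comm R (f ^ n) := by
  cases n with
  | ofNat n => rw [Int.ofNat_eq_natCast, zpow_natCast]; exact hf.pow n
  | negSucc n => rw [zpow_negSucc]; exact Comm.inv (hf.pow _)

/-- `θ ^ N` acts as `r₀` and no proper divisor `d` of `N` has an `r` with `r ^ (N / d) = r₀`: then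
all cycles of `θ` on the orbits have length `N`. -/
theorem star [Finite Ω] (hfree : ∀ (r : R) (w : Ω), r • w = w → r = 1)
    (hk : Equiva ρ k) {θ : Equiv.Perm Ω} (hθ : Comm R θ) {N : ℕ} {r₀ : R}
    (h : ∀ w, (θ ^ N) w = r₀ • w) (hN : ∀ d, d ∣ N → d ≠ N → ∀ r : R, r ^ (N / d) ≠ r₀) :
    ∃ n : ℕ, Nat.card (MulAction.orbitRel.Quotient R Ω) = N * n ∧ tau R k θ = ρ r₀ ^ n := by
  classical
  have hM : ∀ m : Subgroup.zpowers θ, Comm R (m : Equiv.Perm Ω) := by
    rintro ⟨_, i, rfl⟩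
    exact Comm.zpow hθ i
  let C : Ω → Set Ω := fun w => {w' | ∃ (r : R) (m : Subgroup.zpowers θ),
    w' = r • (m : Equiv.Perm Ω) w}
  have hC1 : ∀ w, w ∈ C w := fun w => ⟨1, 1, by simp⟩
  have hC2' : ∀ w w', w' ∈ C w → C w' ⊆ C w := by
    rintro w w' ⟨r, m, rfl⟩ v ⟨t, m', rfl⟩
    refine ⟨t * r, m' * m, ?_⟩
    rw [hM m', mul_smul]
    rfl
  have hC3 : ∀ w w', w' ∈ C w → w ∈ C w' := by
    rintro w w' ⟨r, m, rfl⟩
    refine ⟨r⁻¹, m⁻¹, ?_⟩
    rw [hM m⁻¹, inv_smul_smul, ← Equiv.Perm.mul_apply, Subgroup.coe_inv, inv_mul_cancel,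
      Equiv.Perm.one_apply]
  have hC2 : ∀ w w', w' ∈ C w → C w' = C w := fun w w' h =>
    Set.Subset.antisymm (hC2' w w' h) (hC2' w' w (hC3 w w' h))
  let m₀ : Subgroup.zpowers θ := ⟨θ, Subgroup.mem_zpowers θ⟩
  letI : CommGroup (Subgroup.zpowers θ) :=
    { (inferInstance : Group (Subgroup.zpowers θ)) with
      mul_comm := by
        rintro ⟨_, i, rfl⟩ ⟨_, j, rfl⟩
        apply Subtype.ext
        show θ ^ i * θ ^ j = θ ^ j * θ ^ i
        rw [← zpow_add, ← zpow_add, add_comm] }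
  have key : ∀ w : Ω,
      ∏ᶠ (q : MulAction.orbitRel.Quotient R Ω) (_ : C q.out = C w), gau R k θ q = ρ r₀ ∧
      Nat.card {q : MulAction.orbitRel.Quotient R Ω // C q.out = C w} = N := by
    intro w
    let φ : Subgroup.zpowers θ → Ω := fun m => (m : Equiv.Perm Ω) w
    have hφr : ∀ (m m' m'' : Subgroup.zpowers θ) (r : R), φ m' = r • φ m →
        φ (m' * m'') = r • φ (m * m'') := by
      intro m m' m'' r h1
      show (m' * m'' : Equiv.Perm Ω) w = r • (m * m'' : Equiv.Perm Ω) w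
      have h2 : (m' * m'' : Equiv.Perm Ω) = (m'' : Equiv.Perm Ω) * m' :=
        congrArg Subtype.val (mul_comm m' m'')
      have h3 : (m * m'' : Equiv.Perm Ω) = (m'' : Equiv.Perm Ω) * m :=
        congrArg Subtype.val (mul_comm m m'')
      rw [h2, h3, Equiv.Perm.mul_apply, Equiv.Perm.mul_apply, ← hM m'']
      exact congrArg (m'' : Equiv.Perm Ω) h1
    have hφf : ∀ m, θ (φ m) = φ (m * m₀) := by
      intro m
      rw [mul_comm]
      rfl
    obtain ⟨h1, h2, h3⟩ := fibre0 hfree hk hθ hC1 hC2 w m₀ φ (by simp [φ]) hφf hφr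
      (fun w' => Iff.rfl)
    -- the index is `N`
    obtain ⟨S, hS⟩ : ∃ S : Subgroup (Subgroup.zpowers θ), S = stb φ hφr := ⟨_, rfl⟩
    rw [← hS] at h1 h2
    have hmem : ∀ m, m ∈ S ↔ ∃ r : R, φ m = r • w := by
      intro m
      rw [hS]
      show (∃ r : R, φ m = r • φ 1) ↔ _
      simp [φ]
    have hpow : ∀ n : ℕ, φ (m₀ ^ n) = (θ ^ n) w := fun n => rfl
    have hgen : orderOf (m₀ : Subgroup.zpowers θ ⧸ S) = S.index := by
      apply orderOf_eq_card_of_forall_mem_zpowers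
      intro x
      obtain ⟨y, rfl⟩ := QuotientGroup.mk_surjective x
      obtain ⟨_, i, rfl⟩ := y
      exact ⟨i, rfl⟩
    have hdvd : S.index ∣ N := by
      rw [← hgen]
      apply orderOf_dvd_of_pow_eq_one
      rw [← QuotientGroup.mk_pow, QuotientGroup.eq_one_iff, hmem]
      exact ⟨r₀, by rw [hpow, h]⟩
    obtain ⟨r, hr⟩ := (hmem _).1 (Subgroup.pow_index_mem S m₀)
    have hrn : ∀ j : ℕ, (θ ^ (S.index * j)) w = r ^ j • w := by
      intro j
      induction j with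
      | zero => simp
      | succ j ih =>
        rw [mul_add, mul_one, pow_add, Equiv.Perm.mul_apply, ← hpow S.index, hr,
          (hθ.pow (S.index * j)), ih, ← mul_smul, pow_succ']
    have hidx : S.index = N := by
      by_contra hne
      apply hN _ hdvd hne r
      have h4 := hrn (N / S.index)
      rw [Nat.mul_div_cancel' hdvd, h] at h4
      have h5 := hfree ((r ^ (N / S.index))⁻¹ * r₀) w (by rw [mul_smul, h4, inv_smul_smul])
      rw [inv_mul_eq_one] at h5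
      exact h5
    rw [hidx] at h1 h2
    exact ⟨h1 r₀ (by rw [hpow, h]), h2⟩
  obtain ⟨n, hn1, hn2⟩ := tau_classes (R := R) (k := k) (f := θ) (C := C) (a := ρ r₀)
    fun w => (key w).1
  exact ⟨n, hn2 N fun w => (key w).2, hn1⟩

/-- The consequence: `N |R|` times the order of `ρ r₀` divides the number of points. -/
theorem star_dvd [Finite Ω] (hfree : ∀ (r : R) (w : Ω), r • w = w → r = 1)
    (hk : Equiva ρ k) {θ : Equiv.Perm Ω} (hθ : Comm R θ) {N : ℕ} {r₀ : R}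
    (h : ∀ w, (θ ^ N) w = r₀ • w) (hN : ∀ d, d ∣ N → d ≠ N → ∀ r : R, r ^ (N / d) ≠ r₀)
    (ht : tau R k θ = 1) : orderOf (ρ r₀) * (N * Nat.card R) ∣ Nat.card Ω := by
  obtain ⟨n, h1, h2⟩ := star hfree hk hθ h hN
  rw [ht] at h2
  have h3 : orderOf (ρ r₀) ∣ n := orderOf_dvd_of_pow_eq_one h2.symm
  rw [card_free hfree, h1]
  obtain ⟨e, rfl⟩ := h3
  exact ⟨e, by ring⟩

/-- The case of a prime `N`. -/
theorem star_prime [Finite Ω] (hfree : ∀ (r : R) (w : Ω), r • w = w → r = 1)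
    (hk : Equiva ρ k) {θ : Equiv.Perm Ω} (hθ : Comm R θ) {ℓ : ℕ} (hℓ : ℓ.Prime) {r₀ : R}
    (h : ∀ w, (θ ^ ℓ) w = r₀ • w) (hN : ∀ r : R, r ^ ℓ ≠ r₀)
    (ht : tau R k θ = 1) : orderOf (ρ r₀) * (ℓ * Nat.card R) ∣ Nat.card Ω := by
  apply star_dvd hfree hk hθ h _ ht
  intro d hd hdn r
  rcases (Nat.dvd_prime hℓ).1 hd with rfl | rfl
  · rw [Nat.div_one]
    exact hN r
  · exact absurd rfl hdn

end

end Pool.Agent.PP.ML.H71
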