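import Pool.Agent.Helper24_ML.TL2

/-!
# Squad ML, stage 2, row TL3 (helper71): the star relation
-/

open scoped BigOperators

set_option linter.unusedSectionVars false

noncomputable section

namespace Pool.Agent.PP.ML.H71

open Pool.Agent.PP.ML Pool.Agent.Helper71_ML Pool.Agent.PP.ML.H24

section moves

variable {G X : Type} [Group G] [MulAction G X]

/-- the twist around the handle and all punctures but the first -/
def m3 (g : G) (w : X × G × G × List G) : X × G × G × List G :=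
  match w with
  | (s, x, y, []) => (s, x, y, [])
  | (s, x, y, z :: l) => (s, x, z⁻¹ * g⁻¹ * x * y, z :: cl (z⁻¹ * g⁻¹ * x) l)

theorem m3_inj (g : G) :
    Function.Injective (m3 g : X × G × G × List G → X × G × G × List G) := by
  rintro ⟨s, x, y, l⟩ ⟨s', x', y', l'⟩ e
  cases l with
  | nil =>
    cases l' with
    | nil => exact e
    | cons z' l' =>
      simp [m3] at e
  | cons z l =>
    cases l' with
    | nil => simp [m3] at e
    | cons z' l' =>
      simp only [m3, Prod.mk.injEq, List.cons.injEq] at e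
      obtain ⟨rfl, rfl, e3, rfl, e4⟩ := e
      have h1 := mul_left_cancel e3
      subst h1
      have h2 := congrArg (cl (z⁻¹ * g⁻¹ * x)⁻¹) e4
      rw [cl_cl, cl_cl, inv_mul_cancel, cl_one, cl_one] at h2
      subst h2
      rfl

theorem m3_cjl {r g : G} (h : r * g = g * r) (w : X × G × G × List G) :
    m3 g (cjl r w) = cjl r (m3 g w) := by
  obtain ⟨s, x, y, l⟩ := w
  cases l with
  | nil => rfl
  | cons z l =>
    have h1 : g⁻¹ * r = r * g⁻¹ := by
      rw [inv_mul_eq_iff_eq_mul, ← mul_assoc, ← h, mul_inv_cancel_right]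
    have h2 : (r * z * r⁻¹)⁻¹ * g⁻¹ * (r * x * r⁻¹) = r * (z⁻¹ * g⁻¹ * x) * r⁻¹ := by
      calc (r * z * r⁻¹)⁻¹ * g⁻¹ * (r * x * r⁻¹) = r * z⁻¹ * r⁻¹ * (g⁻¹ * r) * (x * r⁻¹) := by group
        _ = r * (z⁻¹ * g⁻¹ * x) * r⁻¹ := by rw [h1]; group
    show (r • s, r * x * r⁻¹, (r * z * r⁻¹)⁻¹ * g⁻¹ * (r * x * r⁻¹) * (r * y * r⁻¹),
      (r * z * r⁻¹) :: cl ((r * z * r⁻¹)⁻¹ * g⁻¹ * (r * x * r⁻¹)) (cl r l)) =
      (r • s, r * x * r⁻¹, r * (z⁻¹ * g⁻¹ * x * y) * r⁻¹,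
        (r * z * r⁻¹) :: cl r (cl (z⁻¹ * g⁻¹ * x) l))
    rw [h2, cl_cl, cl_cl]
    have h3 : r * (z⁻¹ * g⁻¹ * x) * r⁻¹ * r = r * (z⁻¹ * g⁻¹ * x) := by group
    have h4 : r * (z⁻¹ * g⁻¹ * x) * r⁻¹ * (r * y * r⁻¹) = r * (z⁻¹ * g⁻¹ * x * y) * r⁻¹ := by group
    rw [h3, h4]

/-- `a₃ b a₃ = b a₃ b` -/
theorem braid_3b (g : G) (w : X × G × G × List G) (hw : w.2.2.2 ≠ []) :
    m3 g (mb (m3 g w)) = mb (m3 g (mb w)) := by
  obtain ⟨s, x, y, l⟩ := w
  cases l with
  | nil => exact absurd rfl hw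
  | cons z l =>
    simp only [m3, mb, Prod.mk.injEq, true_and, cl_cl, List.cons.injEq]
    refine ⟨?_, ?_, ?_⟩
    · group
    · group
    · congr 1
      group

end moves

section inom

variable {G X : Type} [Group G] [Finite G] [MulAction G X] {R : Subgroup G} {g : G}
  {Cs : List (Set G)}

theorem mem_nrm {U : Subgroup G} {n : G} :
    n ∈ Subgroup.normalizer (U : Set G) ↔ ∀ u ∈ U, n * u * n⁻¹ ∈ U := by
  rw [Subgroup.mem_normalizer_iff]
  constructor
  · intro h u hu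
    exact (h u).1 hu
  · intro h u
    refine ⟨h u, fun hu => ?_⟩
    have h1 := conj_inv_mem U n h _ hu
    have h2 : n⁻¹ * (n * u * n⁻¹) * n = u := by group
    rwa [h2] at h1

theorem inOmL_m3 (hR : ∀ r ∈ R, r * g = g * r) (hCs : ∀ K ∈ Cs, Cj K)
    {w : X × G × G × List G} (h : InOmL R g Cs w) : InOmL R g Cs (m3 g w) := by
  have hg := g_smul h
  obtain ⟨s, x, y, l⟩ := w
  cases l with
  | nil => exact h
  | cons z l =>
    obtain ⟨h1, h2, h3, h4, h5, h6⟩ := h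
    simp only at h1 h2 h3 h4 h5 h6 hg
    have hg' : g⁻¹ • s = s := inv_smul_eq_iff.2 hg.symm
    have hz : z • s = s := h3 z List.mem_cons_self
    have hz' : z⁻¹ • s = s := inv_smul_eq_iff.2 hz.symm
    have he : (z⁻¹ * g⁻¹ * x) • s = s := by rw [mul_smul, mul_smul, h1, hg', hz']
    refine ⟨h1, ?_, ?_, ?_, ?_, ?_⟩
    · show (z⁻¹ * g⁻¹ * x * y) • s = s
      rw [mul_smul, h2, he]
    · intro z₁ hz₁
      have hz₂ : z₁ ∈ z :: cl (z⁻¹ * g⁻¹ * x) l := hz₁
      rcases List.mem_cons.1 hz₂ with rfl | hz₃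
      · exact hz
      · obtain ⟨z', hz', rfl⟩ := cl_mem.1 hz₃
        show ((z⁻¹ * g⁻¹ * x) * z' * (z⁻¹ * g⁻¹ * x)⁻¹) • s = s
        rw [mul_smul, mul_smul, inv_smul_eq_iff.2 he.symm,
          h3 z' (List.mem_cons_of_mem _ hz'), he]
    · show List.Forall₂ (fun z K => z ∈ K) (z :: cl (z⁻¹ * g⁻¹ * x) l) Cs
      cases h4 with
      | cons h7 h8 =>
        exact List.Forall₂.cons h7
          (cl_forall (fun K hK => hCs K (List.mem_cons_of_mem _ hK)) _ h8)
    · show x * (z⁻¹ * g⁻¹ * x * y) * x⁻¹ * (z⁻¹ * g⁻¹ * x * y)⁻¹ =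
        g * (z :: cl (z⁻¹ * g⁻¹ * x) l).prod
      rw [List.prod_cons, cl_prod]
      rw [List.prod_cons] at h5
      have e : l.prod = z⁻¹ * g⁻¹ * (x * y * x⁻¹ * y⁻¹) := by rw [h5]; group
      rw [e]
      group
    · intro U hU hf hx hy hl
      have hx' : x ∈ Subgroup.normalizer (U : Set G) := mem_nrm.2 hx
      have hy' : z⁻¹ * g⁻¹ * x * y ∈ Subgroup.normalizer (U : Set G) := mem_nrm.2 hy
      have hl' : ∀ z₁ ∈ z :: cl (z⁻¹ * g⁻¹ * x) l, z₁ ∈ Subgroup.normalizer (U : Set G) :=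
        fun z₁ h => mem_nrm.2 (hl z₁ h)
      have hgn : g ∈ Subgroup.normalizer (U : Set G) := by
        rw [mem_nrm]
        intro u hu
        rw [← hR u (hU hu), mul_inv_cancel_right]
        exact hu
      have hzn : z ∈ Subgroup.normalizer (U : Set G) := hl' z List.mem_cons_self
      have hen : z⁻¹ * g⁻¹ * x ∈ Subgroup.normalizer (U : Set G) :=
        Subgroup.mul_mem _ (Subgroup.mul_mem _ (Subgroup.inv_mem _ hzn)
          (Subgroup.inv_mem _ hgn)) hx'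
      refine h6 U hU hf (mem_nrm.1 hx') (mem_nrm.1 ?_) fun z₁ hz₁ => mem_nrm.1 ?_
      · exact (Subgroup.mul_mem_cancel_left _ hen).1 hy'
      · rcases List.mem_cons.1 hz₁ with rfl | hz₂
        · exact hzn
        · have h7 := hl' ((z⁻¹ * g⁻¹ * x) * z₁ * (z⁻¹ * g⁻¹ * x)⁻¹)
            (List.mem_cons_of_mem _ (cl_mem.2 ⟨z₁, hz₂, rfl⟩))
          have h8 := (Subgroup.mul_mem_cancel_right _ (Subgroup.inv_mem _ hen)).1 h7
          exact (Subgroup.mul_mem_cancel_left _ hen).1 h8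

end inom

/-- the move `a₃` -/
def p3 {G X : Type} [Group G] [Finite G] [Finite X] [MulAction G X] {R : Subgroup G} {g : G}
    {Cs : List (Set G)} (hR : ∀ r ∈ R, r * g = g * r) (hCs : ∀ K ∈ Cs, Cj K) :
    Equiv.Perm (Om (X := X) R g Cs) :=
  perm (m3 g) (m3_inj g) fun _ h => inOmL_m3 hR hCs h

theorem tl3 (core : CoreStmt) : TL3Stmt := by
  intro G X A _ _ _ _ _ R g ρ hR K K' hK hK' j hj hcu
  have hCs : ∀ K₁ ∈ [K, K'], Cj K₁ := by
    intro K₁ hK₁
    rcases List.mem_cons.1 hK₁ with rfl | h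
    · exact hK
    · rw [List.mem_singleton.1 h]
      exact hK'
  let act : MulAction R (Om (X := X) R g [K, K']) := act hR hCs
  have hsm : ∀ (r : R) (w : Om (X := X) R g [K, K']), (r • w).1 = cjl r.1 w.1 := fun _ _ => rfl
  have hfree : ∀ (r : R) (w : Om (X := X) R g [K, K']), r • w = w → r = 1 := by
    intro r w h
    exact Subtype.ext (free_cjl w.2 r.2 (congrArg Subtype.val h))
  obtain ⟨k, hk⟩ := exists_equiva (Ω := Om (X := X) R g [K, K']) ρ fun r w h => by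
    rw [hfree r w h, map_one]
  obtain ⟨P1, hP1⟩ : ∃ P, P = p1 (X := X) R g [K, K'] := ⟨_, rfl⟩
  obtain ⟨PB, hPB⟩ : ∃ P, P = pb (X := X) R g [K, K'] := ⟨_, rfl⟩
  obtain ⟨P2, hP2⟩ : ∃ P, P = p2 (X := X) hR hCs := ⟨_, rfl⟩
  obtain ⟨P3, hP3⟩ : ∃ P, P = p3 (X := X) hR hCs := ⟨_, rfl⟩
  have v1 : ∀ w : Om (X := X) R g [K, K'], (P1 w).1 = m1 w.1 := by
    rw [hP1]; exact fun _ => rfl
  have vb : ∀ w : Om (X := X) R g [K, K'], (PB w).1 = mb w.1 := by
    rw [hPB]; exact fun _ => rfl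
  have v2 : ∀ w : Om (X := X) R g [K, K'], (P2 w).1 = m2 g w.1 := by
    rw [hP2]; exact fun _ => rfl
  have v3 : ∀ w : Om (X := X) R g [K, K'], (P3 w).1 = m3 g w.1 := by
    rw [hP3]; exact fun _ => rfl
  have c1 : Comm R P1 := fun r w => Subtype.ext (by
    rw [v1, hsm, hsm, v1]; exact m1_cjl r.1 w.1)
  have cb : Comm R PB := fun r w => Subtype.ext (by
    rw [vb, hsm, hsm, vb]; exact mb_cjl r.1 w.1)
  have c2 : Comm R P2 := fun r w => Subtype.ext (by
    rw [v2, hsm, hsm, v2]; exact m2_cjl (hR r.1 r.2) w.1)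
  have c3 : Comm R P3 := fun r w => Subtype.ext (by
    rw [v3, hsm, hsm, v3]; exact m3_cjl (hR r.1 r.2) w.1)
  have hne : ∀ w : Om (X := X) R g [K, K'], w.1.2.2.2 ≠ [] := by
    intro w h
    have h1 := w.2.ml
    rw [h] at h1
    cases h1
  have t1 : tau R k P1 = 1 := by rw [hP1]; exact core G X A R g ρ hR [K, K'] hCs k hk
  have b1 : P1 * PB * P1 = PB * P1 * PB := Equiv.ext fun w => Subtype.ext (by
    simp only [Equiv.Perm.mul_apply, v1, vb]; exact braid_1b w.1)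
  have b2 : P2 * PB * P2 = PB * P2 * PB := Equiv.ext fun w => Subtype.ext (by
    simp only [Equiv.Perm.mul_apply, v2, vb]; exact braid_2b g w.1)
  have b3 : P3 * PB * P3 = PB * P3 * PB := Equiv.ext fun w => Subtype.ext (by
    simp only [Equiv.Perm.mul_apply, v3, vb]; exact braid_3b g w.1 (hne w))
  have tb : tau R k PB = 1 := by
    rw [← tau_braid hk c1 cb b1]
    exact t1
  have t2 : tau R k P2 = 1 := by
    rw [tau_braid hk c2 cb b2]
    exact tb
  have t3 : tau R k P3 = 1 := by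
    rw [tau_braid hk c3 cb b3]
    exact tb
  -- the permutation `θ = a₁ a₂ a₃ b`
  obtain ⟨θ, hθ⟩ : ∃ θ : Equiv.Perm (Om (X := X) R g [K, K']), θ = P1 * P2 * P3 * PB := ⟨_, rfl⟩
  have cθ : Comm R θ := by
    rw [hθ]
    exact ((c1.mul c2).mul c3).mul cb
  have tθ : tau R k θ = 1 := by
    rw [hθ, tau_mul hk ((c1.mul c2).mul c3) cb, tau_mul hk (c1.mul c2) c3, tau_mul hk c1 c2,
      t1, t2, t3, tb, one_mul, one_mul, one_mul]
  have hstar : ∀ w : Om (X := X) R g [K, K'], ((θ ^ 3) w).1 = cjl g⁻¹ w.1 := by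
    intro w
    have hval : ∀ v : Om (X := X) R g [K, K'], (θ v).1 = m1 (m2 g (m3 g (mb v.1))) := by
      intro v
      rw [hθ]
      simp only [Equiv.Perm.mul_apply, v1, v2, v3, vb]
    have h4 : ((θ ^ 3) w).1 = m1 (m2 g (m3 g (mb (m1 (m2 g (m3 g (mb (m1 (m2 g (m3 g
        (mb w.1))))))))))) := by
      have e : (θ ^ 3) w = θ (θ (θ w)) := rfl
      rw [e, hval, hval, hval]
    rw [h4]
    have hg := g_smul w.2
    have hg' : g⁻¹ • w.1.1 = w.1.1 := inv_smul_eq_iff.2 hg.symm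
    have hcm := w.2.cm
    have hml := w.2.ml
    obtain ⟨⟨s, x, y, l⟩, hw⟩ := w
    simp only at hcm hml hg'
    obtain ⟨z, z', rfl⟩ : ∃ z z', l = [z, z'] := by
      cases hml with
      | cons h1 h2 =>
        cases h2 with
        | cons h3 h4 =>
          cases h4
          exact ⟨_, _, rfl⟩
    have hrel : MRel g (x, y, z, z') := by
      unfold MRel
      simp only
      rw [hcm, List.prod_cons, List.prod_singleton, mul_assoc]
    have hstep : ∀ t : G × G × G × G,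
        m1 (m2 g (m3 g (mb (s, t.1, t.2.1, [t.2.2.1, t.2.2.2]))))
          = (s, (mTh g t).1, (mTh g t).2.1, [(mTh g t).2.2.1, (mTh g t).2.2.2]) := by
      intro t
      rfl
    have e1 := hstep (x, y, z, z')
    simp only at e1
    rw [e1, hstep, hstep, star_rel hrel]
    simp only [cjl, cl, List.map_cons, List.map_nil, inv_inv, hg']
  -- powers
  have hpow : ∀ (i : ℕ) (w : Om (X := X) R g [K, K']), (((θ ^ 3) ^ i) w).1 = cjl (g ^ i)⁻¹ w.1 := by
    intro i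
    induction i with
    | zero =>
      intro w
      rw [pow_zero, pow_zero, inv_one, cjl_one]
      rfl
    | succ i ih =>
      intro w
      rw [pow_succ', Equiv.Perm.mul_apply, hstar, ih, ← cjl_mul, pow_succ, mul_inv_rev]
  obtain ⟨r₀, hr₀⟩ : ∃ r₀ : R, r₀ = (⟨g ^ j, hj⟩ : R)⁻¹ := ⟨_, rfl⟩
  have hθj : ∀ w : Om (X := X) R g [K, K'], ((θ ^ j) ^ 3) w = r₀ • w := by
    intro w
    apply Subtype.ext
    rw [← pow_mul, mul_comm j 3, pow_mul, hpow, hsm, hr₀]
    rfl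
  have hN : ∀ r : R, r ^ 3 ≠ r₀ := by
    intro v hv
    apply hcu (v⁻¹ : R).1 (v⁻¹ : R).2
    have h2 : (v⁻¹) ^ 3 = (⟨g ^ j, hj⟩ : R) := by
      rw [inv_pow, hv, hr₀, inv_inv]
    exact congrArg Subtype.val h2
  have hfin := star_prime hfree hk (cθ.pow j) Nat.prime_three hθj hN
    (by rw [tau_pow hk cθ, tθ, one_pow])
  have hord : orderOf (ρ r₀) = orderOf (ρ ⟨g ^ j, hj⟩) := by
    rw [hr₀, map_inv, orderOf_inv]
  rw [hord] at hfin
  have h9 : {w : X × G × G × List G | InOmL R g [K, K'] w}.ncard =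
      Nat.card (Om (X := X) R g [K, K']) := rfl
  rw [h9]
  have h10 : 3 * orderOf (ρ ⟨g ^ j, hj⟩) * Nat.card R
      = orderOf (ρ ⟨g ^ j, hj⟩) * (3 * Nat.card R) := by ring
  rw [h10]
  exact hfin

end Pool.Agent.PP.ML.H71
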