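import Mathlib

/-!
Transfer of permutations commuting with a group action into a commutative group.

`R` acts on the finite set `Ω`, `φ : R →* A` is a homomorphism into a commutative group and
`k : Ω → A` satisfies `k (r • ω) = φ r * k ω`. For a permutation `f` of `Ω` that commutes with `R`
the function `k (f ω) / k ω` is constant on the `R`-orbits; `tau` is its product over the orbits.
-/

open scoped BigOperators

noncomputable section

namespace Pool.Agent.Helper71_ML

section

variable {R Ω A : Type*} [Group R] [MulAction R Ω] [CommGroup A] {φ : R →* A} {k : Ω → A}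

/-- `f` commutes with the action of `R` -/
def Comm (R : Type*) {Ω : Type*} [Group R] [MulAction R Ω] (f : Equiv.Perm Ω) : Prop :=
  ∀ (r : R) (ω : Ω), f (r • ω) = r • f ω

/-- `k` is equivariant -/
def Equiva (φ : R →* A) (k : Ω → A) : Prop := ∀ (r : R) (ω : Ω), k (r • ω) = φ r * k ω

theorem Comm.one : Comm R (1 : Equiv.Perm Ω) := fun _ _ => rfl

theorem Comm.mul {f g : Equiv.Perm Ω} (hf : Comm R f) (hg : Comm R g) : Comm R (f * g) := by
  intro r ω
  rw [Equiv.Perm.mul_apply, Equiv.Perm.mul_apply, hg r ω, hf r (g ω)]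

theorem Comm.pow {f : Equiv.Perm Ω} (hf : Comm R f) (n : ℕ) : Comm R (f ^ n) := by
  induction n with
  | zero => exact Comm.one
  | succ n ih => rw [pow_succ]; exact ih.mul hf

/-- the quotient `k (f ω) / k ω` as a function of the orbit (junk value `1` if not invariant) -/
def gau (R : Type*) {Ω A : Type*} [Group R] [MulAction R Ω] [CommGroup A] (k : Ω → A)
    (f : Equiv.Perm Ω) (q : MulAction.orbitRel.Quotient R Ω) : A :=
  k (f q.out) / k q.out

theorem gau_mk (hk : Equiva φ k) {f : Equiv.Perm Ω} (hf : Comm R f) (ω : Ω) :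
    gau R k f (Quotient.mk'' ω) = k (f ω) / k ω := by
  have h : (MulAction.orbitRel R Ω) (Quotient.mk'' ω : MulAction.orbitRel.Quotient R Ω).out ω :=
    Quotient.exact' (Quotient.out_eq' _)
  rw [MulAction.orbitRel_apply] at h
  obtain ⟨r, hr⟩ := h
  have hr' : (Quotient.mk'' ω : MulAction.orbitRel.Quotient R Ω).out = r • ω := hr.symm
  unfold gau
  rw [hr', hf r ω, hk r, hk r, mul_div_mul_left_eq_div]

/-- the permutation of the orbits induced by `f` -/
def bar {f : Equiv.Perm Ω} (hf : Comm R f) : MulAction.orbitRel.Quotient R Ω ≃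
    MulAction.orbitRel.Quotient R Ω where
  toFun := Quotient.map' f (by
    intro a b hab
    rw [MulAction.orbitRel_apply] at hab ⊢
    obtain ⟨r, hr⟩ := hab
    exact ⟨r, by rw [← hr]; exact (hf r b).symm⟩)
  invFun := Quotient.map' f.symm (by
    intro a b hab
    rw [MulAction.orbitRel_apply] at hab ⊢
    obtain ⟨r, hr⟩ := hab
    refine ⟨r, ?_⟩
    show r • f.symm b = f.symm a
    rw [← hr, Equiv.eq_symm_apply, hf r, Equiv.apply_symm_apply])
  left_inv := by
    intro q
    induction q using Quotient.inductionOn' with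
    | h a => simp [Quotient.map'_mk'']
  right_inv := by
    intro q
    induction q using Quotient.inductionOn' with
    | h a => simp [Quotient.map'_mk'']

theorem bar_mk {f : Equiv.Perm Ω} (hf : Comm R f) (ω : Ω) :
    bar hf (Quotient.mk'' ω : MulAction.orbitRel.Quotient R Ω) = Quotient.mk'' (f ω) := rfl

/-- the transfer -/
def tau (R : Type*) {Ω A : Type*} [Group R] [MulAction R Ω] [Finite Ω] [CommGroup A] (k : Ω → A)
    (f : Equiv.Perm Ω) : A :=
  ∏ᶠ q : MulAction.orbitRel.Quotient R Ω, gau R k f q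

variable [Finite Ω]

theorem tau_mul (hk : Equiva φ k) {f g : Equiv.Perm Ω} (hf : Comm R f) (hg : Comm R g) :
    tau R k (f * g) = tau R k f * tau R k g := by
  classical
  have : Finite (MulAction.orbitRel.Quotient R Ω) := Quotient.finite _
  have h1 : ∀ q : MulAction.orbitRel.Quotient R Ω,
      gau R k (f * g) q = gau R k f (bar hg q) * gau R k g q := by
    intro q
    induction q using Quotient.inductionOn' with
    | h a =>
      rw [bar_mk, gau_mk hk (hf.mul hg), gau_mk hk hf, gau_mk hk hg, Equiv.Perm.mul_apply,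
        div_mul_div_cancel]
  unfold tau
  rw [finprod_congr h1, finprod_mul_distrib (Set.toFinite _) (Set.toFinite _)]
  congr 1
  exact finprod_comp_equiv (bar hg)

theorem tau_one : tau R k (1 : Equiv.Perm Ω) = 1 := by
  unfold tau gau
  simp

theorem tau_pow (hk : Equiva φ k) {f : Equiv.Perm Ω} (hf : Comm R f) (n : ℕ) :
    tau R k (f ^ n) = tau R k f ^ n := by
  induction n with
  | zero => rw [pow_zero, pow_zero, tau_one]
  | succ n ih => rw [pow_succ, pow_succ, tau_mul hk (hf.pow n) hf, ih]

/-- if `f` acts as the element `r` of `R` then its transfer is a power of `φ r` -/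
theorem tau_smul (hk : Equiva φ k) {f : Equiv.Perm Ω} (hf : Comm R f) {r : R}
    (hr : ∀ ω, f ω = r • ω) :
    tau R k f = φ r ^ Nat.card (MulAction.orbitRel.Quotient R Ω) := by
  classical
  have : Finite (MulAction.orbitRel.Quotient R Ω) := Quotient.finite _
  have := Fintype.ofFinite (MulAction.orbitRel.Quotient R Ω)
  have h1 : ∀ q : MulAction.orbitRel.Quotient R Ω, gau R k f q = φ r := by
    intro q
    induction q using Quotient.inductionOn' with
    | h a => rw [gau_mk hk hf, hr, hk, mul_div_cancel_right]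
  unfold tau
  rw [finprod_congr h1, finprod_eq_prod_of_fintype, Finset.prod_const, Finset.card_univ,
    Nat.card_eq_fintype_card]

/-- conjugate permutations have the same transfer; the braid relation gives `tau a = tau b` -/
theorem tau_braid (hk : Equiva φ k) {a b : Equiv.Perm Ω} (ha : Comm R a) (hb : Comm R b)
    (h : a * b * a = b * a * b) : tau R k a = tau R k b := by
  have h1 := congrArg (tau R k) h
  rw [tau_mul hk (ha.mul hb) ha, tau_mul hk ha hb, tau_mul hk (hb.mul ha) hb,
    tau_mul hk hb ha] at h1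
  have h2 : tau R k a * tau R k b * tau R k a = tau R k b * (tau R k a * tau R k b) := by
    rw [h1, mul_assoc]
  rw [mul_comm (tau R k a * tau R k b) (tau R k a)] at h2
  exact mul_right_cancel h2

omit [Finite Ω] in
/-- an equivariant function exists as soon as the stabilisers lie in the kernel of `φ` -/
theorem exists_equiva (φ : R →* A) (hfree : ∀ (r : R) (ω : Ω), r • ω = ω → φ r = 1) :
    ∃ k : Ω → A, Equiva φ k := by
  classical
  have hex : ∀ ω : Ω, ∃ r : R,
      r • (Quotient.mk'' ω : MulAction.orbitRel.Quotient R Ω).out = ω := by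
    intro ω
    have h : (MulAction.orbitRel R Ω) (Quotient.mk'' ω : MulAction.orbitRel.Quotient R Ω).out ω :=
      Quotient.exact' (Quotient.out_eq' _)
    rw [MulAction.orbitRel_apply] at h
    obtain ⟨r, hr⟩ := h
    exact ⟨r⁻¹, by rw [← hr, inv_smul_smul]⟩
  choose t ht using hex
  refine ⟨fun ω => φ (t ω), ?_⟩
  intro r ω
  have hq : (Quotient.mk'' (r • ω) : MulAction.orbitRel.Quotient R Ω) = Quotient.mk'' ω :=
    Quotient.sound' (by rw [MulAction.orbitRel_apply]; exact ⟨r, rfl⟩)
  have h1 := ht (r • ω)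
  rw [hq] at h1
  have h2 := ht ω
  have h3 : ((r * t ω)⁻¹ * t (r • ω)) •
      (Quotient.mk'' ω : MulAction.orbitRel.Quotient R Ω).out =
      (Quotient.mk'' ω : MulAction.orbitRel.Quotient R Ω).out := by
    rw [mul_smul, h1, inv_smul_eq_iff, mul_smul, h2]
  have h4 := hfree _ _ h3
  rw [map_mul, map_inv, map_mul, inv_mul_eq_one] at h4
  exact h4.symm

/-- The consequence of the braid relation: if `a b a = b a b`, the transfer of `a` is trivial and
`(a b) ^ (6 m)` acts as an element `r` of `R`, then `φ r ^ #orbits = 1`. -/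
theorem braid_pow (hk : Equiva φ k) {a b : Equiv.Perm Ω} (ha : Comm R a) (hb : Comm R b)
    (h : a * b * a = b * a * b) (ht : tau R k a = 1) {m : ℕ} {r : R}
    (hr : ∀ ω, ((a * b) ^ (6 * m)) ω = r • ω) :
    φ r ^ Nat.card (MulAction.orbitRel.Quotient R Ω) = 1 := by
  rw [← tau_smul hk ((ha.mul hb).pow (6 * m)) hr, tau_pow hk (ha.mul hb), tau_mul hk ha hb,
    ← tau_braid hk ha hb h, ht, one_mul, one_pow]

end

/-! ## Pieces -/

section piece

variable {M A : Type*} [CommGroup M] [Finite M] [CommGroup A]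

/-- the transfer of a commutative group to a subgroup is the power map -/
theorem piece_prod (D : Subgroup M) (ϕ : D →* A) (κ : M → A)
    (hκ : ∀ (m : M) (d : D), κ (m * d) = ϕ d * κ m) (x : M) (hx : x ^ D.index ∈ D) :
    ∏ᶠ t : M ⧸ D, κ (t.out * x) / κ t.out = ϕ ⟨x ^ D.index, hx⟩ := by
  classical
  have : Finite (M ⧸ D) := Quotient.finite _
  have := Fintype.ofFinite (M ⧸ D)
  -- `t.out * x = (t * x).out * d t`
  have hd : ∀ t : M ⧸ D, ∃ d : D, t.out * x = ((t * (x : M ⧸ D)) : M ⧸ D).out * (d : M) := by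
    intro t
    have h1 : ((((t * (x : M ⧸ D)) : M ⧸ D).out : M) : M ⧸ D) = ((t.out * x : M) : M ⧸ D) := by
      rw [QuotientGroup.mk_mul, QuotientGroup.out_eq', QuotientGroup.out_eq']
    rw [QuotientGroup.eq] at h1
    exact ⟨⟨_, h1⟩, by simp⟩
  choose d hd using hd
  have h1 : ∀ t : M ⧸ D, κ (t.out * x) / κ t.out =
      ϕ (d t) * (κ ((t * (x : M ⧸ D)) : M ⧸ D).out / κ t.out) := by
    intro t
    rw [hd t, hκ, mul_div_assoc]
  rw [finprod_congr h1, finprod_mul_distrib (Set.toFinite _) (Set.toFinite _),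
    finprod_div_distrib (Set.toFinite _) (Set.toFinite _)]
  have h2 : ∏ᶠ t : M ⧸ D, κ ((t * (x : M ⧸ D)) : M ⧸ D).out = ∏ᶠ t : M ⧸ D, κ t.out :=
    finprod_comp_equiv (Equiv.mulRight (x : M ⧸ D)) (f := fun t : M ⧸ D => κ t.out)
  rw [h2, div_self', mul_one, finprod_eq_prod_of_fintype, ← map_prod]
  congr 1
  apply Subtype.ext
  have h3 : (((∏ t : M ⧸ D, d t : D)) : M) = ∏ t : M ⧸ D, (d t : M) := by
    rw [SubmonoidClass.coe_finsetProd]
  rw [h3]
  have h4 : ∏ t : M ⧸ D, (t.out * x) = ∏ t : M ⧸ D, (((t * (x : M ⧸ D)) : M ⧸ D).out * (d t : M)) :=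
    Finset.prod_congr rfl fun t _ => hd t
  rw [Finset.prod_mul_distrib, Finset.prod_mul_distrib, Finset.prod_const, Finset.card_univ] at h4
  have h5 : ∏ t : M ⧸ D, ((t * (x : M ⧸ D)) : M ⧸ D).out = ∏ t : M ⧸ D, (t.out : M) :=
    Fintype.prod_equiv (Equiv.mulRight (x : M ⧸ D)) _ _ fun t => rfl
  rw [h5] at h4
  have h6 := mul_left_cancel h4
  rw [← h6]
  congr 1
  show Fintype.card (M ⧸ D) = D.index
  rw [Subgroup.index, Nat.card_eq_fintype_card]

end piece

/-! ## The lemma on finite commutative groups -/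

/-- in a finite cyclic group an element whose order divides the order of a subgroup lies in the
subgroup -/
theorem mem_of_pow_card {C : Type*} [Group C] [Finite C] [IsCyclic C] (H : Subgroup C) (w : C)
    (hw : w ^ Nat.card H = 1) : w ∈ H := by
  classical
  have := Fintype.ofFinite C
  have h1 : (Finset.univ.filter fun a : C => a ^ Nat.card H = 1).card ≤ Nat.card H :=
    IsCyclic.card_pow_eq_one_le Nat.card_pos
  have h2 : (Finset.univ.filter fun a : C => a ∈ H) ⊆
      Finset.univ.filter fun a : C => a ^ Nat.card H = 1 := by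
    intro a ha
    rw [Finset.mem_filter] at ha ⊢
    refine ⟨ha.1, ?_⟩
    have h3 := pow_card_eq_one' (x := (⟨a, ha.2⟩ : H))
    exact congrArg Subtype.val h3
  have h3 : (Finset.univ.filter fun a : C => a ∈ H).card = Nat.card H := by
    rw [Nat.card_eq_fintype_card, Fintype.card_subtype]
  have h4 := Finset.eq_of_subset_of_card_le h2 (by rw [h3]; exact h1)
  have h5 : w ∈ Finset.univ.filter fun a : C => a ^ Nat.card H = 1 := by
    rw [Finset.mem_filter]
    exact ⟨Finset.mem_univ _, hw⟩
  rw [← h4, Finset.mem_filter] at h5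
  exact h5.2

theorem exp_dvd_index_aux (n : ℕ) : ∀ {M : Type*} [CommGroup M] [Finite M] (Q : Subgroup M)
    (_ : IsCyclic (M ⧸ Q)) (ψ : Q →* M) (_ : Function.Injective ψ)
    (_ : ∀ S : Subgroup M, S ≤ Q → (∀ s (hs : s ∈ Q), s ∈ S → ψ ⟨s, hs⟩ ∈ S) → S = ⊥)
    (_ : Nat.card M ≤ n) (m : M), m ^ Q.index = 1 := by
  induction n with
  | zero =>
    intro M _ _ Q _ ψ _ _ hn m
    have : 0 < Nat.card M := Nat.card_pos
    omega
  | succ n ih =>
    intro M _ _ Q hcyc ψ hinj hinv hn m
    by_cases hQ : Q = ⊤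
    · have h1 := hinv ⊤ (by rw [hQ]) fun s hs _ => Subgroup.mem_top _
      have h2 : m ∈ (⊤ : Subgroup M) := Subgroup.mem_top m
      rw [h1, Subgroup.mem_bot] at h2
      rw [h2, one_pow]
    · -- the smaller triple
      have hcard : Nat.card Q ≤ n := by
        have h1 : Nat.card Q ≠ Nat.card M := by
          intro h
          exact hQ ((Subgroup.card_eq_iff_eq_top Q).1 h)
        have h2 : Nat.card Q ≤ Nat.card M := Subgroup.card_le_card_group Q
        omega
      let Q' : Subgroup Q := Q.comap ψ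
      let ψ' : Q' →* Q := (ψ.comp Q'.subtype).codRestrict Q fun q => q.2
      let θ : Q →* M ⧸ Q := (QuotientGroup.mk' Q).comp ψ
      have hker : θ.ker = Q' := by
        ext q
        rw [MonoidHom.mem_ker]
        show (QuotientGroup.mk' Q) (ψ q) = 1 ↔ ψ q ∈ Q
        rw [QuotientGroup.mk'_apply, QuotientGroup.eq_one_iff]
      have hidx : Q'.index = Nat.card θ.range := by
        rw [← hker, Subgroup.index_ker]
      have hcyc' : IsCyclic (Q ⧸ Q') := by
        have h1 : IsCyclic θ.range := inferInstance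
        have e : (Q ⧸ θ.ker) ≃* θ.range := QuotientGroup.quotientKerEquivRange θ
        have e2 : (Q ⧸ Q') ≃* θ.range := (QuotientGroup.quotientMulEquivOfEq hker.symm).trans e
        exact isCyclic_of_injective e2.toMonoidHom e2.injective
      have hinj' : Function.Injective ψ' := by
        intro a b hab
        have h1 : ψ (a : Q) = ψ (b : Q) := congrArg Subtype.val hab
        exact Subtype.ext (hinj h1)
      have hinv' : ∀ S : Subgroup Q, S ≤ Q' →
          (∀ s (hs : s ∈ Q'), s ∈ S → ψ' ⟨s, hs⟩ ∈ S) → S = ⊥ := by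
        intro S hS hS2
        have h1 : S.map Q.subtype = ⊥ := by
          apply hinv
          · rintro _ ⟨s, _, rfl⟩
            exact s.2
          · rintro s hs ⟨t, ht, rfl⟩
            refine ⟨ψ' ⟨t, hS ht⟩, hS2 t (hS ht) ht, ?_⟩
            rfl
        rw [Subgroup.map_eq_bot_iff_of_injective _ Q.subtype_injective] at h1
        exact h1
      have hIH : ∀ q : Q, q ^ Q'.index = 1 := ih Q' hcyc' ψ' hinj' hinv' hcard
      have hdvd : Q'.index ∣ Q.index := by
        rw [hidx]
        exact Subgroup.card_subgroup_dvd_card θ.range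
      obtain ⟨e, he⟩ := hdvd
      have h1 : ((m : M ⧸ Q) ^ e) ∈ θ.range := by
        apply mem_of_pow_card
        rw [← hidx, ← pow_mul, mul_comm, ← he]
        exact pow_card_eq_one'
      obtain ⟨q, hq⟩ := h1
      have h2 : ((ψ q : M) : M ⧸ Q) = ((m ^ e : M) : M ⧸ Q) := hq
      rw [QuotientGroup.eq] at h2
      have h3 : m ^ e = ψ q * ((⟨_, h2⟩ : Q) : M) := by simp
      rw [he, mul_comm, pow_mul, h3, mul_pow, ← map_pow, hIH q, map_one, one_mul,
        ← Subgroup.coe_pow, hIH, Subgroup.coe_one]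

/-- `M` a finite commutative group, `Q ≤ M` with `M / Q` cyclic, `ψ : Q → M` an injective
homomorphism without nontrivial subgroup `S ≤ Q`, `ψ S ≤ S`. Then the exponent of `M` divides
the index of `Q`. -/
theorem exp_dvd_index {M : Type*} [CommGroup M] [Finite M] (Q : Subgroup M)
    (hcyc : IsCyclic (M ⧸ Q)) (ψ : Q →* M) (hinj : Function.Injective ψ)
    (hinv : ∀ S : Subgroup M, S ≤ Q → (∀ s (hs : s ∈ Q), s ∈ S → ψ ⟨s, hs⟩ ∈ S) → S = ⊥) (m : M) :
    m ^ Q.index = 1 :=
  exp_dvd_index_aux (Nat.card M) Q hcyc ψ hinj hinv le_rfl m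

end Pool.Agent.Helper71_ML
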